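import Pool.Graph.R_seed8.H727R3.Final
import Mathlib

set_option autoImplicit false

namespace Pool.Agent.Results.MP_d08592_nt.ValueSet

open Pool.Agent.H727R3
open scoped Classical

section
variable {K : Type} [Field K] [Fintype K] [DecidableEq K] [CharP K 2] [Algebra (ZMod 2) K]

/-- The subspace `c⁻¹ F`. -/
def scl (c : K) (F : Submodule (ZMod 2) K) : Submodule (ZMod 2) K :=
  mkSub {x | c * x ∈ F} (by simp) (fun x hx y hy => by
    have : c * (x + y) = c * x + c * y := mul_add c x y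
    change c * (x + y) ∈ F
    rw [this]
    exact F.add_mem hx hy)

lemma mem_scl {c : K} {F : Submodule (ZMod 2) K} {x : K} : x ∈ scl c F ↔ c * x ∈ F := Iff.rfl

lemma el_scl {c : K} (hc : c ≠ 0) (F : Submodule (ZMod 2) K) :
    el (scl c F) = (el F).image (fun v => c⁻¹ * v) := by
  ext x
  rw [mem_el, mem_scl, Finset.mem_image]
  constructor
  · intro h
    exact ⟨c * x, mem_el.2 h, by rw [← mul_assoc, inv_mul_cancel₀ hc, one_mul]⟩
  · rintro ⟨v, hv, rfl⟩
    rw [← mul_assoc, mul_inv_cancel₀ hc, one_mul]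
    exact mem_el.1 hv

lemma inj_scl {c : K} (hc : c ≠ 0) : Function.Injective fun v : K => c⁻¹ * v :=
  mul_right_injective₀ (inv_ne_zero hc)

lemma card_scl {c : K} (hc : c ≠ 0) (F : Submodule (ZMod 2) K) :
    (el (scl c F)).card = (el F).card := by
  rw [el_scl hc, Finset.card_image_of_injective _ (inj_scl hc)]

lemma S_scl {c : K} (hc : c ≠ 0) (F : Submodule (ZMod 2) K) : S (scl c F) = c * S F := by
  unfold S
  rw [el_scl hc, Finset.sum_image fun x _ y _ h => inj_scl hc h, Finset.mul_sum]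
  refine Finset.sum_congr rfl fun v _ => ?_
  rw [mul_inv, inv_inv]

lemma exists_out (E : Submodule (ZMod 2) K) (h : (el E).card < Fintype.card K) : ∃ a, a ∉ E := by
  by_contra hc
  push Not at hc
  have : el E = Finset.univ := by
    ext x
    simp [hc x]
  rw [this, Finset.card_univ] at h
  exact lt_irrefl _ h

lemma exists_dim {n : ℕ} (hn : Fintype.card K = 2 ^ n) (j : ℕ) (hj : j ≤ n) :
    ∃ E : Submodule (ZMod 2) K, (el E).card = 2 ^ j := by
  induction j with
  | zero => exact ⟨⊥, by rw [card_bot', pow_zero]⟩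
  | succ j ih =>
    obtain ⟨E, hE⟩ := ih (by omega)
    obtain ⟨a, ha⟩ := exists_out E (by
      rw [hE, hn]
      exact Nat.pow_lt_pow_right (by norm_num) (by omega))
    exact ⟨adj E a, by rw [card_adj ha, hE, pow_succ, mul_comm]⟩

lemma exists_ne {n k : ℕ} (hn : Fintype.card K = 2 ^ n) (hk : 1 ≤ k) (hkn : k + 1 ≤ n) :
    ∃ F : Submodule (ZMod 2) K, (el F).card = 2 ^ k ∧ S F ≠ 0 := by
  obtain ⟨E, hE⟩ := exists_dim (K := K) hn (k - 1) (by omega)
  obtain ⟨a, ha⟩ := exists_out E (by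
    rw [hE, hn]
    exact Nat.pow_lt_pow_right (by norm_num) (by omega))
  have hca : (el (adj E a)).card = 2 ^ k := by
    rw [card_adj ha, hE, ← pow_succ']
    congr 1
    omega
  obtain ⟨b, hb⟩ := exists_out (adj E a) (by
    rw [hca, hn]
    exact Nat.pow_lt_pow_right (by norm_num) (by omega))
  have hb' : b ∉ E := fun h => hb (mem_adj.2 (Or.inl h))
  have hab : b + a ∉ E := fun h => hb (mem_adj.2 (Or.inr h))
  have hcb : (el (adj E b)).card = 2 ^ k := by
    rw [card_adj hb', hE, ← pow_succ']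
    congr 1
    omega
  by_contra hcon
  push Not at hcon
  have h1 := hcon _ hca
  have h2 := hcon _ hcb
  rw [S_adj ha] at h1
  rw [S_adj hb'] at h2
  have h3 : g E a = g E b := add_left_cancel (h1.trans h2.symm)
  rw [g_eq ha, g_eq hb'] at h3
  have hla : L E a ≠ 0 := fun h => ha (L_eq_zero.mp h)
  have hlb : L E b ≠ 0 := fun h => hb' (L_eq_zero.mp h)
  have h4 : L E b = L E a := by
    rw [div_eq_div_iff hla hlb] at h3
    exact mul_left_cancel₀ (pc_ne_zero E) h3
  apply hab
  rw [← L_eq_zero, L_add, h4, CharTwo.add_self_eq_zero]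

lemma main {n k : ℕ} (hn : Fintype.card K = 2 ^ n) (hodd : n % 2 = 1) (hk : 1 ≤ k)
    (hkn : k + 1 ≤ n) (c : K) : (∃ F : Submodule (ZMod 2) K, (el F).card = 2 ^ k ∧ S F = c) ↔
      (c ≠ 0 ∨ (3 ≤ k ∧ k ≤ n - 3)) := by
  by_cases hc : c = 0
  · subst hc
    simp only [ne_eq, not_true_eq_false, false_or]
    constructor
    · intro h
      by_contra hcon
      exact not_exists (K := K) (k := k) hn hodd (by omega) (by omega) h
    · rintro ⟨h1, h2⟩
      exact exists_all hn hodd h1 (by omega)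
  · refine ⟨fun _ => Or.inl hc, fun _ => ?_⟩
    obtain ⟨F, h1, h2⟩ := exists_ne (K := K) hn hk hkn
    have h3 : c / S F ≠ 0 := div_ne_zero hc h2
    exact ⟨scl (c / S F) F, by rw [card_scl h3, h1], by rw [S_scl h3, div_mul_cancel₀ _ h2]⟩

end

/-- Let `n` be odd, `K` a field with `2 ^ n` elements and `1 ≤ k ≤ n - 1`. The sums of inverses of
the nonzero elements over the `k`-dimensional `𝔽₂`-subspaces of `K` take every nonzero value, and
they take the value zero if and only if `3 ≤ k ≤ n - 3`. -/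
theorem result (n : ℕ) (hodd : Odd n) (K : Type) [Field K] [Algebra (ZMod 2) K]
    (hK : Nat.card K = 2 ^ n) (k : ℕ) (hk : 1 ≤ k) (hkn : k ≤ n - 1) (c : K) :
    (∃ F : Subspace (ZMod 2) K, Module.finrank (ZMod 2) F = k ∧ ∑ᶠ v ∈ (F : Set K), v⁻¹ = c) ↔
      (c ≠ 0 ∨ (3 ≤ k ∧ k ≤ n - 3)) := by
  haveI : Finite K := Nat.finite_of_card_ne_zero (by rw [hK]; positivity)
  letI : Fintype K := Fintype.ofFinite _
  haveI : CharP K 2 := charP_of_injective_algebraMap (algebraMap (ZMod 2) K).injective 2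
  have hn : Fintype.card K = 2 ^ n := by rw [← Nat.card_eq_fintype_card, hK]
  rw [← main hn (Nat.odd_iff.mp hodd) hk (by omega) c]
  constructor
  · rintro ⟨F, h1, h2⟩
    refine ⟨F, (card_el_iff F k).mp h1, ?_⟩
    rw [finsum_el F (fun v => v⁻¹)] at h2
    exact h2
  · rintro ⟨F, h1, h2⟩
    refine ⟨F, (card_el_iff F k).mpr h1, ?_⟩
    rw [finsum_el F (fun v => v⁻¹)]
    exact h2

end Pool.Agent.Results.MP_d08592_nt.ValueSet
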